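import Pool.Agent.helper13.BN.Stmt
import Pool.Agent.helper58.BN.Solve
import Pool.Agent.helper22.BN.AxSp

/-!
# MP_94a57f_an, module D10: blow-up of the sup norm, nodality (from two norm bounds)
-/

set_option autoImplicit false
open MeasureTheory Filter Topology Set Metric
open scoped ContDiff Gradient RealInnerProductSpace ENNReal

noncomputable section
namespace Pool.Agent.helper13.BN
variable {N : ℕ}

theorem abs_bet55 (N : ℕ) : |bet N| = 1 := by
  unfold bet
  split_ifs <;> simp

theorem ann_sub_ball55 (ρ : ℝ) : ann N ρ ⊆ ball (0 : E N) 1 := fun x hx => by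
  rw [mem_ball_zero_iff]; exact hx.2

theorem eLp_of_nq55 {q : ℝ} {Ω : Set (E N)} {g : E N → ℝ} (h : Mq q Ω g) {c : ℝ}
    (hc : nq q Ω g ≤ c) :
    eLpNorm g (ENNReal.ofReal q) (volume.restrict Ω) ≤ ENNReal.ofReal c := by
  rw [← ENNReal.ofReal_toReal h.eLpNorm_ne_top]
  exact ENNReal.ofReal_le_ofReal hc

/-- sign information passes to the limit -/
theorem blow_sign55 {m : Measure (E N)} {p : ℝ≥0∞} (hp : p ≠ 0) {f : ℕ → E N → ℝ} {g : E N → ℝ}
    (hg : AEStronglyMeasurable g m)
    (hlim : Tendsto (fun n => eLpNorm (fun x => f n x - g x) p m) atTop (𝓝 0))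
    (h : ¬ ∀ᵐ x ∂m, g x ≤ 0) : ∀ᶠ n in atTop, ¬ ∀ᵐ x ∂m, f n x ≤ 0 := by
  by_contra hcon
  rw [Filter.not_eventually] at hcon
  have hfr : ∃ᶠ n in atTop, eLpNorm (fun x => max (g x) 0) p m ≤
      eLpNorm (fun x => f n x - g x) p m := by
    refine hcon.mono (fun n hn => ?_)
    rw [not_not] at hn
    refine eLpNorm_mono_ae ?_
    filter_upwards [hn] with x hx
    rw [Real.norm_eq_abs, Real.norm_eq_abs, abs_of_nonneg (le_max_right _ _)]
    refine max_le ?_ (abs_nonneg _)
    have := neg_abs_le (f n x - g x)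
    linarith
  have h0 : eLpNorm (fun x => max (g x) 0) p m = 0 := by
    by_contra hne
    have hpos : 0 < eLpNorm (fun x => max (g x) 0) p m := pos_iff_ne_zero.2 hne
    have hev := hlim.eventually (gt_mem_nhds hpos)
    obtain ⟨n, hn1, hn2⟩ := (hfr.and_eventually hev).exists
    exact absurd hn1 (not_le.2 hn2)
  have hm : AEStronglyMeasurable (fun x => max (g x) 0) m :=
    hg.sup aestronglyMeasurable_const
  rw [eLpNorm_eq_zero_iff hm hp] at h0
  refine h ?_
  filter_upwards [h0] with x hx
  have h1 := le_max_left (g x) 0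
  rw [show max (g x) 0 = 0 from hx] at h1
  exact h1

theorem blow_core (hN : 3 ≤ N) {η : ℝ} (F : Fam N η) {d μ : ℕ → ℝ} {φ : ℕ → LV N}
    (hps : ∃ C d₁ : ℝ, 0 < C ∧ 0 < d₁ ∧ F.ρ < 1 - d₁ ∧ ∀ (e : E N) (d μ : ℝ), ‖e‖ = 1 → 0 < d →
      d < d₁ → 0 < μ → μ ≤ d ^ 2 →
      nq 2 (ann N F.ρ) (fn (WW e F.ρ d μ)) ≤ C * μ ^ ((1 : ℝ) / 4) ∧
      C⁻¹ ≤ nq (ts N) (ball (cen e d) μ) (fn (WW e F.ρ d μ)))
    (hd : ∀ᶠ n in atTop, 0 < d n) (hμ : ∀ᶠ n in atTop, 0 < μ n)
    (hμd : ∀ᶠ n in atTop, μ n ≤ d n ^ 2) (hφm : ∀ᶠ n in atTop, φ n ∈ XS F.e F.ρ)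
    (hd0 : Tendsto d atTop (𝓝 0)) (hφ0 : Tendsto φ atTop (𝓝 0)) :
    (∀ M : ℝ, ∀ᶠ n in atTop,
      ¬ ∀ᵐ x, |fn (F.v n + bet N • WW F.e F.ρ (d n) (μ n) + φ n) x| ≤ M) ∧
    ∀ᶠ n in atTop, SignChanging (fn (F.v n + bet N • WW F.e F.ρ (d n) (μ n) + φ n)) := by
  obtain ⟨C, d₁, hC, hd₁, hρd, hsm⟩ := hps
  have hDv : ∀ n, F.v n ∈ DD (ann N F.ρ) := fun n => (F.v_sol n).1
  have hDW : ∀ d μ : ℝ, WW F.e F.ρ d μ ∈ DD (ann N F.ρ) := fun d μ => T_mem _ _
  have hDb : F.vb ∈ DD (ann N F.ρ) := F.vb_sol.1
  have hU : ∀ {w : LV N}, w ∈ DD (ann N F.ρ) → w ∈ DD (univ : Set (E N)) :=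
    fun h => DD_mono (subset_univ _) h
  have hB : ∀ {w : LV N}, w ∈ DD (ann N F.ρ) → w ∈ DD (ball (0 : E N) 1) :=
    fun h => DD_mono (ann_sub_ball55 _) h
  have hμ0 : Tendsto μ atTop (𝓝 0) := by
    have h1 : Tendsto (fun n => d n ^ 2) atTop (𝓝 0) := by
      have := hd0.pow 2
      simpa using this
    exact tendsto_of_tendsto_of_tendsto_of_le_of_le' tendsto_const_nhds h1
      (hμ.mono fun n hn => hn.le) hμd
  have hdd : ∀ᶠ n in atTop, d n < d₁ := hd0.eventually (gt_mem_nhds hd₁)
  have hexp : ∀ᶠ n in atTop, fn (F.v n + bet N • WW F.e F.ρ (d n) (μ n) + φ n) =ᵐ[volume]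
      fun x => fn (F.v n) x + bet N * fn (WW F.e F.ρ (d n) (μ n)) x + fn (φ n) x := by
    filter_upwards [hφm] with n hn
    have hφD := ((mem_XS hN).1 hn).1
    have h1 := fn_add hN (w := F.v n + bet N • WW F.e F.ρ (d n) (μ n)) (w' := φ n)
      (Submodule.add_mem _ (hU (hDv n)) (Submodule.smul_mem _ _ (hU (hDW _ _)))) (hU hφD)
    have h2 := fn_add hN (w := F.v n) (w' := bet N • WW F.e F.ρ (d n) (μ n)) (hU (hDv n))
      (Submodule.smul_mem _ _ (hU (hDW _ _)))
    have h3 := fn_smul hN (bet N) (hU (hDW (d n) (μ n)))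
    filter_upwards [h1, h2, h3] with x h1 h2 h3
    rw [h1, h2, h3]
  have hφe : Tendsto (fun n => eLpNorm (fn (φ n)) (ENNReal.ofReal (ts N)) volume) atTop (𝓝 0) := by
    have h1 : Tendsto (fun n => ENNReal.ofReal (SS N * ‖φ n‖)) atTop (𝓝 0) := by
      have h2 : Tendsto (fun n => SS N * ‖φ n‖) atTop (𝓝 0) := by
        have := (tendsto_norm_zero.comp hφ0).const_mul (SS N)
        simpa using this
      simpa using ENNReal.tendsto_ofReal h2
    refine tendsto_of_tendsto_of_tendsto_of_le_of_le' tendsto_const_nhds h1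
      (Eventually.of_forall fun n => zero_le) ?_
    filter_upwards [hφm] with n hn
    have hφD := ((mem_XS hN).1 hn).1
    have h3 := sobolev hN (hU hφD)
    have h4 := eLp_of_nq55 h3.1 h3.2
    rwa [Measure.restrict_univ] at h4
  constructor
  · intro M
    set M' : ℝ := |M| + F.K with hM'
    have hA : Tendsto (fun n => eLpNorm (fun _ : E N => M') (ENNReal.ofReal (ts N))
        (volume.restrict (ball (cen F.e (d n)) (μ n))) +
        eLpNorm (fn (φ n)) (ENNReal.ofReal (ts N)) volume) atTop (𝓝 0) := by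
      have h1 : Tendsto (fun n => eLpNorm (fun _ : E N => M') (ENNReal.ofReal (ts N))
          (volume.restrict (ball (cen F.e (d n)) (μ n)))) atTop (𝓝 0) := by
        have hts : 0 < ts N := by have := ts_gt hN; linarith
        have hvol : Tendsto (fun n => volume (ball (cen F.e (d n)) (μ n))) atTop (𝓝 0) := by
          have h2 : Tendsto (fun n => ENNReal.ofReal (μ n ^ N) * volume (ball (0 : E N) 1))
              atTop (𝓝 0) := by
            have h3 : Tendsto (fun n => ENNReal.ofReal (μ n ^ N)) atTop (𝓝 0) := by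
              have h4 : Tendsto (fun n => μ n ^ N) atTop (𝓝 0) := by
                have := hμ0.pow N
                rwa [zero_pow (by omega)] at this
              simpa using ENNReal.tendsto_ofReal h4
            have := ENNReal.Tendsto.mul_const h3
              (b := volume (ball (0 : E N) 1)) (Or.inr measure_ball_lt_top.ne)
            simpa using this
          refine h2.congr' ?_
          filter_upwards [hμ] with n hn
          rw [Measure.addHaar_ball_of_pos _ _ hn]
          simp
        have h5 : ∀ n, eLpNorm (fun _ : E N => M') (ENNReal.ofReal (ts N))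
            (volume.restrict (ball (cen F.e (d n)) (μ n))) ≤
            ‖M'‖ₑ * volume (ball (cen F.e (d n)) (μ n)) ^ (1 / ts N) := by
          intro n
          rw [eLpNorm_const' _ (by
            rw [Ne, ENNReal.ofReal_eq_zero, not_le]; exact hts) ENNReal.ofReal_ne_top]
          rw [Measure.restrict_apply_univ, ENNReal.toReal_ofReal hts.le]
        have h6 : Tendsto (fun n => ‖M'‖ₑ * volume (ball (cen F.e (d n)) (μ n)) ^ (1 / ts N))
            atTop (𝓝 0) := by
          have h7 := hvol.ennrpow_const (1 / ts N)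
          rw [ENNReal.zero_rpow_of_pos (by positivity)] at h7
          have := ENNReal.Tendsto.const_mul h7 (a := ‖M'‖ₑ) (Or.inr enorm_ne_top)
          simpa using this
        exact tendsto_of_tendsto_of_tendsto_of_le_of_le tendsto_const_nhds h6
          (fun n => zero_le) h5
      simpa using h1.add hφe
    have hCpos : 0 < ENNReal.ofReal C⁻¹ := ENNReal.ofReal_pos.2 (inv_pos.2 hC)
    filter_upwards [hA.eventually (gt_mem_nhds hCpos), hexp, hd, hμ, hμd, hdd] with n hAn hen hdn
      hμn hμdn hddn hcon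
    have hW := (hsm F.e (d n) (μ n) F.he hdn hddn hμn hμdn).2
    set W := WW F.e F.ρ (d n) (μ n) with hWdef
    have hVle : ∀ᵐ x, |fn (F.v n) x| ≤ F.K := by
      filter_upwards [(F.rep n).2.2] with x hx
      rw [hx]
      by_cases hxa : x ∈ ann N F.ρ
      · refine (F.V_le n x hxa).trans ?_
        have h1 := norm_nonneg x
        have h2 := F.hK
        nlinarith [hxa.2]
      · rw [(F.rep n).2.1 x hxa, abs_zero]
        exact F.hK.le
    have hle : eLpNorm (fn W) (ENNReal.ofReal (ts N))
        (volume.restrict (ball (cen F.e (d n)) (μ n))) ≤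
        eLpNorm (fun _ : E N => M') (ENNReal.ofReal (ts N))
        (volume.restrict (ball (cen F.e (d n)) (μ n))) +
        eLpNorm (fn (φ n)) (ENNReal.ofReal (ts N)) volume := by
      have h1 : eLpNorm (fn W) (ENNReal.ofReal (ts N))
          (volume.restrict (ball (cen F.e (d n)) (μ n))) ≤
          eLpNorm ((fun _ : E N => M') + fun x => |fn (φ n) x|) (ENNReal.ofReal (ts N))
          (volume.restrict (ball (cen F.e (d n)) (μ n))) := by
        refine eLpNorm_mono_ae ?_
        refine ae_restrict_of_ae ?_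
        filter_upwards [hVle, hen, hcon] with x h1 h2 h3
        rw [h2] at h3
        have hM'0 : 0 ≤ M' := add_nonneg (abs_nonneg _) F.hK.le
        have h4 : |bet N * fn W x| ≤ M' + |fn (φ n) x| := by
          have e : bet N * fn W x = (fn (F.v n) x + bet N * fn W x + fn (φ n) x) -
            fn (F.v n) x - fn (φ n) x := by ring
          rw [e]
          refine (abs_sub _ _).trans ?_
          refine add_le_add ?_ le_rfl
          refine (abs_sub _ _).trans ?_
          rw [hM']
          exact add_le_add (h3.trans (le_abs_self M)) h1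
        rw [abs_mul, abs_bet55, one_mul] at h4
        rw [Real.norm_eq_abs, Real.norm_eq_abs, Pi.add_apply]
        exact h4.trans (le_abs_self _)
      refine h1.trans ((eLpNorm_add_le aestronglyMeasurable_const
        ((fn_meas (φ n)).norm.restrict) (one_le_ts hN)).trans ?_)
      refine add_le_add le_rfl ?_
      refine (eLpNorm_mono_measure _ Measure.restrict_le_self).trans ?_
      exact (eLpNorm_norm (fn (φ n))).le
    have h5 := hle.trans_lt hAn
    have h6 : nq (ts N) (ball (cen F.e (d n)) (μ n)) (fn W) < C⁻¹ := by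
      unfold nq
      have := (ENNReal.toReal_lt_toReal (h5.trans ENNReal.ofReal_lt_top).ne
        ENNReal.ofReal_ne_top).2 h5
      rwa [ENNReal.toReal_ofReal (inv_pos.2 hC).le] at this
    exact absurd hW (not_le.2 h6)
  · obtain ⟨S, hS, hSob⟩ := exists_sob_q (N := N) hN 1 (q := 2) (by norm_num) (ts_gt hN).le
    have hlim : Tendsto (fun n => eLpNorm (fun x =>
        fn (F.v n + bet N • WW F.e F.ρ (d n) (μ n) + φ n) x - fn F.vb x) 2
        (volume.restrict (ann N F.ρ))) atTop (𝓝 0) := by
      have hz : Tendsto (fun n => ‖F.v n - F.vb‖ + ‖φ n‖) atTop (𝓝 0) := by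
        have h1 : Tendsto (fun n => ‖F.v n - F.vb‖) atTop (𝓝 0) :=
          tendsto_iff_norm_sub_tendsto_zero.1 F.v_lim
        have h2 := tendsto_norm_zero.comp hφ0
        simpa using h1.add h2
      have hm : Tendsto (fun n => ENNReal.ofReal (S * (‖F.v n - F.vb‖ + ‖φ n‖)) +
          ENNReal.ofReal (C * μ n ^ ((1 : ℝ) / 4))) atTop (𝓝 0) := by
        have h1 : Tendsto (fun n => ENNReal.ofReal (S * (‖F.v n - F.vb‖ + ‖φ n‖))) atTop (𝓝 0) := by
          have := ENNReal.tendsto_ofReal (hz.const_mul S)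
          simpa using this
        have h2 : Tendsto (fun n => ENNReal.ofReal (C * μ n ^ ((1 : ℝ) / 4))) atTop (𝓝 0) := by
          have h3 : Tendsto (fun n => μ n ^ ((1 : ℝ) / 4)) atTop (𝓝 0) := by
            have := hμ0.rpow_const (p := (1 : ℝ) / 4) (Or.inr (by norm_num))
            rwa [Real.zero_rpow (by norm_num)] at this
          have := ENNReal.tendsto_ofReal (h3.const_mul C)
          simpa using this
        simpa using h1.add h2
      refine tendsto_of_tendsto_of_tendsto_of_le_of_le' tendsto_const_nhds hm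
        (Eventually.of_forall fun n => zero_le) ?_
      filter_upwards [hexp, hφm, hd, hμ, hμd, hdd] with n hen hφn hdn hμn hμdn hddn
      have hφD := ((mem_XS hN).1 hφn).1
      have hzD : F.v n - F.vb + φ n ∈ DD (ann N F.ρ) :=
        Submodule.add_mem _ (Submodule.sub_mem _ (hDv n) hDb) hφD
      set W := WW F.e F.ρ (d n) (μ n) with hWdef
      have hW2 := (hsm F.e (d n) (μ n) F.he hdn hddn hμn hμdn).1
      have hWm : Mq 2 (ann N F.ρ) (fn W) := by
        have := (hSob W (hB (hDW _ _))).1
        have h2 : MemLp (fn W) (ENNReal.ofReal 2) volume := by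
          have h3 := this
          unfold Mq at h3
          rwa [Measure.restrict_univ] at h3
        exact h2.restrict _
      have hW3 := eLp_of_nq55 hWm hW2
      have hz1 := hSob _ (hB hzD)
      have hz2 := eLp_of_nq55 hz1.1 hz1.2
      rw [Measure.restrict_univ] at hz2
      rw [show ENNReal.ofReal 2 = 2 by norm_num] at hW3 hz2
      have hcong : (fun x => fn (F.v n + bet N • W + φ n) x - fn F.vb x) =ᵐ[volume]
          (fn (F.v n - F.vb + φ n)) + fun x => bet N * fn W x := by
        have h1 := fn_add hN (w := F.v n - F.vb) (w' := φ n)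
          (Submodule.sub_mem _ (hU (hDv n)) (hU hDb)) (hU hφD)
        have h2 := fn_sub hN (hU (hDv n)) (hU hDb)
        filter_upwards [h1, h2, hen] with x h1 h2 h3
        rw [h3, Pi.add_apply, h1, h2]
        ring
      calc eLpNorm (fun x => fn (F.v n + bet N • W + φ n) x - fn F.vb x) 2
            (volume.restrict (ann N F.ρ))
          = eLpNorm ((fn (F.v n - F.vb + φ n)) + fun x => bet N * fn W x) 2
            (volume.restrict (ann N F.ρ)) := eLpNorm_congr_ae (ae_restrict_of_ae hcong)
        _ ≤ eLpNorm (fn (F.v n - F.vb + φ n)) 2 (volume.restrict (ann N F.ρ)) +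
            eLpNorm (fun x => bet N * fn W x) 2 (volume.restrict (ann N F.ρ)) :=
          eLpNorm_add_le (fn_meas _).restrict ((fn_meas _).restrict.const_mul _) (by norm_num)
        _ ≤ ENNReal.ofReal (S * (‖F.v n - F.vb‖ + ‖φ n‖)) +
            ENNReal.ofReal (C * μ n ^ ((1 : ℝ) / 4)) := by
          refine add_le_add ?_ ?_
          · refine (eLpNorm_mono_measure _ Measure.restrict_le_self).trans (hz2.trans ?_)
            refine ENNReal.ofReal_le_ofReal (mul_le_mul_of_nonneg_left (norm_add_le _ _) hS.le)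
          · refine le_trans (eLpNorm_mono fun x => ?_) hW3
            rw [norm_mul, Real.norm_eq_abs (bet N), abs_bet55, one_mul]
    have hoff : ∀ᵐ x, x ∉ ann N F.ρ → fn F.vb x = 0 := fn_zero_off hN hDb
    have hmeas : MeasurableSet (ann N F.ρ) := by
      have h1 : IsOpen (ann N F.ρ) := by
        unfold ann
        exact (isOpen_lt continuous_const continuous_norm).inter
          (isOpen_lt continuous_norm continuous_const)
      exact h1.measurableSet
    have hpos : ¬ ∀ᵐ x ∂(volume.restrict (ann N F.ρ)), fn F.vb x ≤ 0 := by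
      intro h
      refine F.vb_pos ?_
      rw [ae_restrict_iff' hmeas] at h
      filter_upwards [h, hoff] with x h1 h2
      by_cases hx : x ∈ ann N F.ρ
      · exact h1 hx
      · exact (h2 hx).le
    have hneg : ¬ ∀ᵐ x ∂(volume.restrict (ann N F.ρ)), -fn F.vb x ≤ 0 := by
      intro h
      refine F.vb_neg ?_
      rw [ae_restrict_iff' hmeas] at h
      filter_upwards [h, hoff] with x h1 h2
      by_cases hx : x ∈ ann N F.ρ
      · linarith [h1 hx]
      · exact (h2 hx).ge
    have hlim' : Tendsto (fun n => eLpNorm (fun x =>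
        (-fn (F.v n + bet N • WW F.e F.ρ (d n) (μ n) + φ n) x) - (-fn F.vb x)) 2
        (volume.restrict (ann N F.ρ))) atTop (𝓝 0) := by
      refine hlim.congr (fun n => ?_)
      rw [← eLpNorm_neg]
      refine congrArg (fun g => eLpNorm g 2 (volume.restrict (ann N F.ρ))) ?_
      funext x
      simp only [Pi.neg_apply]
      ring
    have h1 := blow_sign55 (by norm_num) (fn_meas F.vb).restrict hlim hpos
    have h2 := blow_sign55 (by norm_num) (fn_meas F.vb).restrict.neg hlim' hneg
    filter_upwards [h1, h2] with n h1 h2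
    refine ⟨fun h => h1 (ae_restrict_of_ae h), fun h => h2 (ae_restrict_of_ae ?_)⟩
    filter_upwards [h] with x hx
    linarith

end Pool.Agent.helper13.BN
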